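import Pool.Agent.H22.NS.Fin

/-!
# The sharp threshold for the joint moments in the non-resonant range (MP_a28cf0_nt)

The plane is `ℂ`, with the upper half plane `HH` and `dμ = dx dy / y²`. A test function is a smooth
function with compact support in `HH`.

Let `f` be an eigenfunction with spectral parameter `t → ∞` and `g_i` eigenfunctions with spectral
parameters `s_i ≥ 0`, all of them locally bounded in `L²`, and let `∑ a_i s_i ≤ t`. The integrals
`∫ ψ f ∏ g_i ^ a_i dμ` decay faster than every power of `t` for all such eigenfunctions and all test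
functions `ψ` if and only if `t - ∑ a_i s_i ≥ t ^ δ` for a fixed `δ > 0` and all large members of the
sequence. For Hecke-Maass cusp forms the first half is Q1, with a rapid rate, for every number `I`
of forms and all exponents, if the form of highest frequency has exponent one and its spectral
parameter exceeds the sum of all others (with multiplicities) by a small power. No condition on the
other forms, no quantum unique ergodicity and no bound for moments is used. The library has this with
`t - ∑ a_i s_i` large compared with `√(t log t)`.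

Proof of the first half. There are radial kernels `K_s`, supported in distances between `1/4` and `2`,
of the form `e^{-i s q} W_s(q)`, with derivatives of `W_s` bounded by constants times `1 + s`, which
reproduce all eigenfunctions of parameter `s` up to a constant bounded from below; for this `K_s` is
built from the two first order factors of the radial equation, and the constant is estimated with
the energy of the spherical function. After inserting these formulas for all factors the claim follows
from a bound for `∫ ψ K_t(d(z, w_0)) ∏ K_{s_j}(d(z, w_j)) dμ(z)`, uniform in all points `w_0, w_j`. In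
geodesic polar coordinates around `w_0` the phase along each ray is `Θ = t ρ + ∑ s_j q_j(ρ)`, `q_j` the
distance to `w_j`, with `Θ' ≥ t - ∑ s_j`, and all logarithmic derivatives of `Θ'` are bounded, as
`q_j'' = coth(q_j) (1 - q_j'²)`. So integration by parts gains `t - ∑ s_j` each time, and not only
`(t - ∑ s_j)² / t`.

Proof of the second half. For the eigenfunctions `√y cos(s log y)` and a test function whose integrals
over horocycles have the form `∑ c_j cos(D_j log y)` times a function of positive type, `D_j` the values
of `t - ∑ a_i s_i` along a subsequence and `c_j` only slightly smaller than all powers of `D_j`, all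
contributions to the integral are nonnegative and the one of `D_j` is larger than `t ^ (-2)`.
-/

set_option autoImplicit false
open MeasureTheory Filter Topology Complex
open scoped ContDiff

namespace Pool.Agent.Results.MP_a28cf0_nt.NonResonantSharp

/-- the open upper half plane -/
def HH : Set ℂ := {z | 0 < z.im}

/-- the Laplacian `∂x² + ∂y²` -/
noncomputable def lapl (f : ℂ → ℝ) (z : ℂ) : ℝ :=
  fderiv ℝ (fun w => fderiv ℝ f w 1) z 1 + fderiv ℝ (fun w => fderiv ℝ f w I) z I

/-- `f` is a smooth real solution of `-y² (∂x² + ∂y²) f = (1/4 + t²) f` on the upper half plane -/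
def Eig (t : ℝ) (f : ℂ → ℝ) : Prop :=
  ContDiffOn ℝ ∞ f HH ∧ ∀ z ∈ HH, -(z.im ^ 2 * lapl f z) = (1 / 4 + t ^ 2) * f z

/-- the sequence `f` is locally bounded in `L²` -/
def LocL2 (f : ℕ → ℂ → ℝ) : Prop :=
  ∀ K : Set ℂ, IsCompact K → K ⊆ HH → ∃ C : ℝ, ∀ᶠ n in atTop, ∫ z in K, f n z ^ 2 ≤ C

/-- test functions: smooth, with compact support contained in the upper half plane -/
def Test (ψ : ℂ → ℝ) : Prop := ContDiff ℝ ∞ ψ ∧ HasCompactSupport ψ ∧ tsupport ψ ⊆ HH

/-- **The sharp threshold in the non-resonant range.** Let `t_n → ∞` and `s_{i,n} ≥ 0` with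
`∑ a_i s_{i,n} ≤ t_n`. The following are equivalent.
(1) There is `δ > 0` such that `t_n - ∑ a_i s_{i,n} ≥ t_n ^ δ` for all large `n`.
(2) For all eigenfunctions `f_n` with the spectral parameters `t_n` and `g_{i,n}` with the spectral
parameters `s_{i,n}`, locally bounded in `L²`, all test functions `ψ` and all `A`,
`t_n ^ A ∫ ψ f_n ∏ g_{i,n} ^ a_i dμ → 0`. -/
theorem result (m : ℕ) (a : Fin m → ℕ) (t : ℕ → ℝ) (s : Fin m → ℕ → ℝ)
    (ht : Tendsto t atTop atTop) (hs0 : ∀ i n, 0 ≤ s i n)
    (hle : ∀ n, ∑ i, (a i : ℝ) * s i n ≤ t n) :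
    (∃ δ : ℝ, 0 < δ ∧ ∀ᶠ n in atTop, t n ^ δ ≤ t n - ∑ i, (a i : ℝ) * s i n) ↔
      ∀ (f : ℕ → ℂ → ℝ) (g : Fin m → ℕ → ℂ → ℝ), (∀ n, Eig (t n) (f n)) →
        (∀ i n, Eig (s i n) (g i n)) → LocL2 f → (∀ i, LocL2 (g i)) →
        ∀ ψ : ℂ → ℝ, Test ψ → ∀ A : ℕ,
          Tendsto (fun n => t n ^ A * ∫ z, ψ z * (f n z * ∏ i, g i n z ^ a i) / z.im ^ 2)
            atTop (𝓝 0) := by
  rw [Pool.Agent.H22.NS.sharp m a ht hs0 hle]
  constructor
  · intro h f g hf hg hfb hgb ψ hψ A
    exact h f g hf hg hfb hgb ψ hψ.1 hψ.2.1 hψ.2.2 A
  · intro h f g hf hg hfb hgb ψ h1 h2 h3 A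
    exact h f g hf hg hfb hgb ψ ⟨h1, h2, h3⟩ A

end Pool.Agent.Results.MP_a28cf0_nt.NonResonantSharp
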